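import Pool.Agent.T98Osi.Core

/-!
# SparseStack matrices of constant sparsity are not oblivious subspace injections

Negative answer to Q1 and Q2: for all constants `C₁, C₂`, every `α > 0` and every failure
probability `δ < 1`, for all sufficiently large `r` and all `n ≥ r`, no SparseStack with sparsity
`ζ ≤ C₁` and `k = b ζ ≤ C₂ r` columns is an oblivious subspace injection with parameter `α` for
`r`-dimensional subspaces of `ℝ^n`.  (Q2 is the case `ζ = 4`, `b = r / 2`.)
-/

set_option autoImplicit false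

open scoped BigOperators

namespace Pool.Agent.Results.MP_59a663_pr.ConstantSparsity

/-- An outcome of the randomness: for every row `i` and every block `j` a sign and an index. -/
abbrev Outcome (n ζ b : ℕ) : Type := Fin n → Fin ζ → Bool × Fin b

/-- Probability when all signs and all indices are independent and uniform (the uniform law on the
finite product). -/
noncomputable def prob {n ζ b : ℕ} (A : Set (Outcome n ζ b)) : ℝ :=
  (Nat.card A : ℝ) / (Nat.card (Outcome n ζ b) : ℝ)

/-- The SparseStack matrix with `k = b ζ` columns, indexed by (block, position in the block):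
row `i` has in block `j` exactly one nonzero entry `± 1 / √ζ`, at the position `s_{ij}`. -/
noncomputable def sparseStack {n ζ b : ℕ} (ω : Outcome n ζ b) : Matrix (Fin n) (Fin ζ × Fin b) ℝ :=
  fun i c => if (ω i c.1).2 = c.2 then (if (ω i c.1).1 then (1 : ℝ) else -1) / Real.sqrt ζ else 0

/-- Squared Euclidean norm. -/
noncomputable def normSq {ι : Type} [Fintype ι] (x : ι → ℝ) : ℝ := ∑ i, x i ^ 2

/-- Injectivity with parameter `α` on the subspace `V`: `α ‖x‖² ≤ ‖Ωᵀ x‖²` for all `x ∈ V`. -/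
def Injects {n ζ b : ℕ} (ω : Outcome n ζ b) (V : Submodule ℝ (Fin n → ℝ)) (α : ℝ) : Prop :=
  ∀ x ∈ V, α * normSq x ≤ normSq ((sparseStack ω).transpose.mulVec x)

/-- The SparseStack in `ℝ^{n × bζ}` is an oblivious subspace injection for `r`-dimensional
subspaces with parameter `α` and failure probability `δ`: for every fixed `r`-dimensional subspace
`V` the injectivity inequality holds on `V` with probability at least `1 - δ`. (Isotropy
`E ‖Ωᵀ x‖² = ‖x‖²` always holds for a SparseStack, see `isotropy`.) -/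
def IsOSI (n ζ b r : ℕ) (α δ : ℝ) : Prop :=
  ∀ V : Submodule ℝ (Fin n → ℝ), Module.finrank ℝ V = r →
    1 - δ ≤ prob {ω : Outcome n ζ b | Injects ω V α}

open Pool.Agent.T98Osi

/-! ### Translation to averages -/

/-- separate signs and indices -/
def sep (n ζ b : ℕ) : Outcome n ζ b ≃ (Fin n → Fin ζ → Fin b) × (Fin n → Fin ζ → Bool) where
  toFun ω := (fun i j => (ω i j).2, fun i j => (ω i j).1)
  invFun z := fun i j => (z.2 i j, z.1 i j)
  left_inv _ := rfl
  right_inv _ := rfl

lemma prob_eq {n ζ b : ℕ} (A : Set (Outcome n ζ b)) : prob A = avg (fun ω => ind (ω ∈ A)) := by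
  classical
  unfold prob avg ind
  congr 1
  · rw [Finset.sum_boole, Nat.card_eq_fintype_card, Fintype.card_subtype]
  · rw [Nat.card_eq_fintype_card]

lemma transpose_apply {n ζ b : ℕ} (ω : Outcome n ζ b) (x : Fin n → ℝ) (p : Fin ζ × Fin b) :
    (sparseStack ω).transpose.mulVec x p =
      ∑ i, x i * (if (ω i p.1).2 = p.2 then sg (ω i p.1).1 * (1 / Real.sqrt ζ) else 0) := by
  change ∑ i, sparseStack ω i p * x i = _
  apply Finset.sum_congr rfl
  intro i _
  unfold sparseStack sg
  split_ifs <;> ring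

/-- isotropy: the mean of `‖Ωᵀ x‖²` is `‖x‖²` -/
theorem isotropy {n ζ b : ℕ} (hζ : 1 ≤ ζ) (hb : 1 ≤ b) (x : Fin n → ℝ) :
    (∑ ω : Outcome n ζ b, normSq ((sparseStack ω).transpose.mulVec x)) /
      (Nat.card (Outcome n ζ b) : ℝ) = normSq x := by
  classical
  have : Nonempty (Fin b) := ⟨⟨0, hb⟩⟩
  have hζ0 : (0 : ℝ) < ζ := by exact_mod_cast hζ
  have hb0 : (0 : ℝ) < b := by exact_mod_cast hb
  rw [Nat.card_eq_fintype_card]
  change avg (fun ω : Outcome n ζ b => normSq ((sparseStack ω).transpose.mulVec x)) = normSq x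
  rw [← avg_equiv (sep n ζ b).symm, avg_prod]
  set c : ℝ := 1 / Real.sqrt ζ with hc
  have hc2 : c ^ 2 * ζ = 1 := by
    rw [hc, div_pow, Real.sq_sqrt hζ0.le]
    field_simp
  have h1 : ∀ s : Fin n → Fin ζ → Fin b,
      avg (fun ς : Fin n → Fin ζ → Bool =>
        normSq ((sparseStack ((sep n ζ b).symm (s, ς))).transpose.mulVec x)) = normSq x := by
    intro s
    unfold normSq
    simp only [transpose_apply]
    rw [avg_sum, Fintype.sum_prod_type]
    have h2 : ∀ (j : Fin ζ) (t : Fin b), avg (fun ς : Fin n → Fin ζ → Bool =>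
        (∑ i, x i * (if s i j = t then sg (ς i j) * c else 0)) ^ 2) =
        ∑ i, c ^ 2 * x i ^ 2 * (if s i j = t then 1 else 0) := by
      intro j t
      rw [avg_sq_sum (fun i (ς : Fin n → Fin ζ → Bool) =>
        x i * (if s i j = t then sg (ς i j) * c else 0))]
      · apply Finset.sum_congr rfl
        intro i _
        have h3 : ∀ ς : Fin n → Fin ζ → Bool,
            (x i * (if s i j = t then sg (ς i j) * c else 0)) ^ 2 =
            c ^ 2 * x i ^ 2 * (if s i j = t then 1 else 0) := by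
          intro ς
          have a := sg_mul_self (ς i j)
          split_ifs
          · linear_combination x i ^ 2 * c ^ 2 * a
          · ring
        rw [funext h3, avg_const]
      · intro k k' hk
        apply avg_eq_zero_of_flip k j
        intro ς
        have f1 : Pool.Agent.T98Osi.flip k j ς k' j = ς k' j := by
          unfold Pool.Agent.T98Osi.flip
          rw [if_neg]
          rintro ⟨h, -⟩
          exact hk h.symm
        have f2 : sg (Pool.Agent.T98Osi.flip k j ς k j) = -sg (ς k j) := by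
          unfold Pool.Agent.T98Osi.flip
          rw [if_pos ⟨rfl, rfl⟩, sg_not]
        rw [f1, f2]
        split_ifs <;> ring
    have h4 : ∀ j : Fin ζ, ∑ t : Fin b, avg (fun ς : Fin n → Fin ζ → Bool =>
        (∑ i, x i * (if s i j = t then sg (ς i j) * c else 0)) ^ 2) = c ^ 2 * ∑ i, x i ^ 2 := by
      intro j
      rw [Finset.sum_congr rfl fun t _ => h2 j t, Finset.sum_comm]
      simp only [← Finset.mul_sum, Finset.sum_ite_eq, Finset.mem_univ, if_true, mul_one]
    refine (Finset.sum_congr rfl fun j _ => h4 j).trans ?_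
    rw [Finset.sum_const, Finset.card_univ, Fintype.card_fin, nsmul_eq_mul]
    linear_combination (∑ i, x i ^ 2) * hc2
  rw [funext h1, avg_const]

/-- extension by zero from the first `r` coordinates -/
def ext0 (r n : ℕ) : (Fin r → ℝ) →ₗ[ℝ] (Fin n → ℝ) where
  toFun y i := if h : i.1 < r then y ⟨i.1, h⟩ else 0
  map_add' y z := by
    funext i
    simp only [Pi.add_apply]
    split_ifs <;> simp
  map_smul' a y := by
    funext i
    simp only [Pi.smul_apply, smul_eq_mul, RingHom.id_apply]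
    split_ifs <;> simp

lemma ext0_injective {r n : ℕ} (h : r ≤ n) : Function.Injective (ext0 r n) := by
  intro y z hyz
  funext i
  have := congrFun hyz (Fin.castLE h i)
  simpa [ext0] using this

/-- the span of the first `r` coordinate vectors -/
def coordSpace (r n : ℕ) : Submodule ℝ (Fin n → ℝ) := LinearMap.range (ext0 r n)

lemma finrank_coordSpace {r n : ℕ} (h : r ≤ n) : Module.finrank ℝ (coordSpace r n) = r := by
  unfold coordSpace
  rw [LinearMap.finrank_range_of_inj (ext0_injective h)]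
  simp

lemma mem_coordSpace {r n : ℕ} {x : Fin n → ℝ} (hr : r ≤ n) (hx : ∀ i : Fin n, r ≤ i.1 → x i = 0) :
    x ∈ coordSpace r n := by
  refine ⟨fun i => x (Fin.castLE hr i), ?_⟩
  funext i
  by_cases h : i.1 < r
  · simp [ext0, h]
  · simp [ext0, h, hx i (by omega)]

/-- injectivity fails for every outcome if there are fewer than `r` columns -/
lemma not_injects {n ζ b r : ℕ} {α : ℝ} (hα : 0 < α) (hk : b * ζ < r)
    (V : Submodule ℝ (Fin n → ℝ)) (hV : Module.finrank ℝ V = r) (ω : Outcome n ζ b) :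
    ¬ Injects ω V α := by
  intro h
  let f : V →ₗ[ℝ] (Fin ζ × Fin b → ℝ) :=
    (Matrix.mulVecLin (sparseStack ω).transpose).comp V.subtype
  have hf : LinearMap.ker f ≠ ⊥ := by
    apply LinearMap.ker_ne_bot_of_finrank_lt
    rw [hV, Module.finrank_fintype_fun_eq_card]
    simp only [Fintype.card_prod, Fintype.card_fin]
    rw [mul_comm]
    exact hk
  obtain ⟨x, hx, hx0⟩ := Submodule.exists_mem_ne_zero_of_ne_bot hf
  have h1 := h x.1 x.2
  have h2 : (sparseStack ω).transpose.mulVec x.1 = 0 := hx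
  rw [h2] at h1
  have h3 : normSq (0 : Fin ζ × Fin b → ℝ) = 0 := by
    unfold normSq
    simp
  rw [h3] at h1
  have h4 : 0 < normSq x.1 := by
    have hne : x.1 ≠ 0 := fun h => hx0 (Subtype.ext h)
    obtain ⟨i, hi⟩ := Function.ne_iff.1 hne
    unfold normSq
    exact Finset.sum_pos' (fun i _ => sq_nonneg _) ⟨i, Finset.mem_univ _, by
      have : x.1 i ≠ 0 := hi
      positivity⟩
  nlinarith

/-- the probability of injectivity on the coordinate space -/
lemma prob_le {n ζ b q N r : ℕ} (hζ : 1 ≤ ζ) (hb : 1 ≤ b) {α : ℝ} (hα : 0 < α) (hq : 1 ≤ q)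
    (hN : 1 ≤ N) (hNr : (ζ * q + 1) * N ≤ r) (hrn : r ≤ n) :
    prob {ω : Outcome n ζ b | Injects ω (coordSpace r n) α} ≤
      ((1 + (1 + (b : ℝ) / N) ^ q / b) ^ ζ - 1) + (1 + (b : ℝ) / N) ^ (q * ζ) / N +
        (ζ / q) / α := by
  have hζ0 : (0 : ℝ) < ζ := by exact_mod_cast hζ
  set c : ℝ := 1 / Real.sqrt ζ with hc
  have hc2 : c ^ 2 * ζ = 1 := by
    rw [hc, div_pow, Real.sq_sqrt hζ0.le]
    field_simp
  have h1 := core (n := n) (ζ := ζ) hb hα hq hN c hNr hrn
  rw [hc2, one_mul] at h1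
  refine le_trans ?_ h1
  rw [prob_eq, ← avg_equiv (sep n ζ b).symm, avg_prod]
  apply avg_mono
  intro s
  apply avg_mono
  intro ς
  unfold ind
  split_ifs with h2 h3
  · exact le_rfl
  · exfalso
    apply h3
    intro x hx
    have h4 : α * normSq x ≤ normSq ((sparseStack ((sep n ζ b).symm (s, ς))).transpose.mulVec x) :=
      h2 x (mem_coordSpace hrn hx)
    unfold normSq at h4
    simp only [transpose_apply] at h4
    exact h4
  · norm_num
  · exact le_rfl

lemma pow_sub_one_le {y : ℝ} (h0 : 0 ≤ y) (h1 : y ≤ 1) (m : ℕ) : (1 + y) ^ m - 1 ≤ 2 ^ m * y := by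
  have h : (1 + y) ^ m ≤ 1 + (2 ^ m - 1) * y := by
    induction m with
    | zero => simp
    | succ m ih =>
      have h2m : (1 : ℝ) ≤ 2 ^ m := one_le_pow₀ (by norm_num)
      have h3 : (1 + y) ^ (m + 1) ≤ (1 + y) * (1 + (2 ^ m - 1) * y) := by
        rw [pow_succ, mul_comm]
        exact mul_le_mul_of_nonneg_left ih (by linarith)
      refine h3.trans ?_
      rw [pow_succ]
      have h4 : 0 ≤ (2 ^ m - 1) * y * (1 - y) :=
        mul_nonneg (mul_nonneg (by linarith) h0) (by linarith)
      linarith [h4, show (1 + (2 ^ m * 2 - 1) * y) - (1 + y) * (1 + (2 ^ m - 1) * y) =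
        (2 ^ m - 1) * y * (1 - y) by ring]
  linarith

/-- **Theorem.** For all `C₁, C₂`, all `α > 0` and all `δ < 1` there is `r₀` such that for all
`r ≥ r₀` and all `n ≥ r`, no SparseStack with sparsity `ζ ≤ C₁` and `k = b ζ ≤ C₂ r` columns is an
oblivious subspace injection for `r`-dimensional subspaces of `ℝ^n` with parameter `α` and failure
probability `δ`. -/
theorem result (C₁ C₂ α δ : ℝ) (hα : 0 < α) (hδ : δ < 1) :
    ∃ r₀ : ℕ, ∀ r n ζ b : ℕ, r₀ ≤ r → r ≤ n → 1 ≤ ζ → 1 ≤ b → (ζ : ℝ) ≤ C₁ →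
      ((b * ζ : ℕ) : ℝ) ≤ C₂ * r → ¬ IsOSI n ζ b r α δ := by
  -- the constants
  obtain ⟨C, hC1, hC2⟩ : ∃ C : ℕ, C₁ ≤ C ∧ C₂ ≤ C := by
    obtain ⟨C, hC⟩ := exists_nat_ge (max C₁ C₂)
    exact ⟨C, (le_max_left _ _).trans hC, (le_max_right _ _).trans hC⟩
  obtain ⟨q, hq⟩ := exists_nat_gt (4 * (C : ℝ) / (α * (1 - δ)))
  have hδ' : 0 < 1 - δ := by linarith
  have hq1 : 1 ≤ q := by
    by_contra h
    have : q = 0 := by omega
    rw [this] at hq
    have : 0 ≤ 4 * (C : ℝ) / (α * (1 - δ)) := by positivity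
    push_cast at hq
    linarith
  have hq0 : (0 : ℝ) < q := by exact_mod_cast hq1
  have hqC : (C : ℝ) / q / α ≤ (1 - δ) / 4 := by
    rw [div_lt_iff₀ (by positivity)] at hq
    rw [div_div, div_le_iff₀ (by positivity)]
    nlinarith
  -- `D` bounds `1 + b / N`
  obtain ⟨D, hD⟩ : ∃ D : ℕ, D = 1 + C * (2 * (C * q + 1)) := ⟨_, rfl⟩
  obtain ⟨A, hA⟩ : ∃ A : ℝ, A = (2 : ℝ) ^ C * (D : ℝ) ^ q * C +
    (D : ℝ) ^ (q * C) * (2 * (C * q + 1)) := ⟨_, rfl⟩
  have hA0 : 0 ≤ A := by rw [hA]; positivity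
  obtain ⟨r₀, hr₀⟩ := exists_nat_gt (max (4 * A / (1 - δ)) (max ((D : ℝ) ^ q * C)
    (2 * (C * q + 1))))
  refine ⟨r₀, ?_⟩
  intro r n ζ b hr hrn hζ hb hζC hbζ hosi
  have hrr : (r₀ : ℝ) ≤ r := by exact_mod_cast hr
  have hr1 : 4 * A / (1 - δ) < r := (le_max_left _ _).trans_lt (hr₀.trans_le hrr)
  have hr2 : (D : ℝ) ^ q * C < r :=
    ((le_max_left _ _).trans (le_max_right _ _)).trans_lt (hr₀.trans_le hrr)
  have hr3 : (2 * (C * q + 1) : ℝ) < r :=
    ((le_max_right _ _).trans (le_max_right _ _)).trans_lt (hr₀.trans_le hrr)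
  have hr3' : 2 * (C * q + 1) < r := by exact_mod_cast hr3
  have hζC' : ζ ≤ C := by exact_mod_cast hζC.trans hC1
  have hrpos : (0 : ℝ) < r := by
    have : 0 < r := by omega
    exact_mod_cast this
  have hbζ' : b * ζ ≤ C * r := by
    have : ((b * ζ : ℕ) : ℝ) ≤ ((C * r : ℕ) : ℝ) := by
      refine hbζ.trans ?_
      push_cast
      gcongr
    exact_mod_cast this
  have hbC : b ≤ C * r := le_trans (Nat.le_mul_of_pos_right b hζ) hbζ'
  have hfin := hosi (coordSpace r n) (finrank_coordSpace hrn)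
  rcases Nat.lt_or_ge (b * ζ) r with hlt | hge
  · -- too few columns
    have hempty : {ω : Outcome n ζ b | Injects ω (coordSpace r n) α} = ∅ := by
      ext ω
      simp only [Set.mem_ofPred_eq, Set.mem_empty_iff_false, iff_false]
      exact not_injects hα hlt _ (finrank_coordSpace hrn) ω
    rw [hempty] at hfin
    unfold prob at hfin
    simp at hfin
    linarith
  · -- the main case
    obtain ⟨N, hNdef⟩ : ∃ N, N = r / (ζ * q + 1) := ⟨_, rfl⟩
    have hd : 0 < ζ * q + 1 := by omega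
    have hN1 : (ζ * q + 1) * N ≤ r := by rw [hNdef]; exact Nat.mul_div_le _ _
    have hzq : ζ * q + 1 ≤ C * q + 1 := by
      have := Nat.mul_le_mul_right q hζC'
      omega
    -- `r ≤ 2 (C q + 1) N`
    have hN2 : r ≤ 2 * (C * q + 1) * N := by
      have h1 : r < (ζ * q + 1) * (N + 1) := by
        rw [hNdef]
        have := Nat.lt_mul_div_succ r hd
        exact this
      have h2 : (ζ * q + 1) * (N + 1) ≤ (C * q + 1) * (N + 1) := Nat.mul_le_mul_right _ hzq
      have h3 : 1 ≤ N := by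
        rw [hNdef]
        rw [Nat.one_le_div_iff hd]
        omega
      nlinarith
    have hN : 1 ≤ N := by
      by_contra h
      have : N = 0 := by omega
      rw [this] at hN2
      omega
    have hN0 : (0 : ℝ) < N := by exact_mod_cast hN
    have hb0 : (0 : ℝ) < b := by exact_mod_cast hb
    have hN2' : (r : ℝ) ≤ 2 * (C * q + 1) * N := by exact_mod_cast hN2
    have hD' : 1 + (b : ℝ) / N ≤ D := by
      rw [hD]
      push_cast
      have : (b : ℝ) / N ≤ C * (2 * (C * q + 1)) := by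
        rw [div_le_iff₀ hN0]
        have h1 : (b : ℝ) ≤ C * r := by exact_mod_cast hbC
        calc (b : ℝ) ≤ C * r := h1
          _ ≤ C * (2 * (C * q + 1) * N) := by gcongr
          _ = _ := by ring
      linarith
    have hbr : (r : ℝ) ≤ C * b := by
      have h1 : r ≤ C * b := by
        calc r ≤ b * ζ := hge
          _ ≤ b * C := Nat.mul_le_mul_left _ hζC'
          _ = C * b := by ring
      exact_mod_cast h1
    have hC0 : (0 : ℝ) < C := by
      by_contra h
      have h2 : (C : ℝ) * b ≤ 0 := mul_nonpos_of_nonpos_of_nonneg (not_lt.1 h) hb0.le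
      linarith
    have hD1 : (1 : ℝ) ≤ D := by
      have : 0 ≤ (b : ℝ) / N := by positivity
      linarith
    have key := prob_le (n := n) hζ hb hα hq1 hN hN1 hrn
    -- first term
    set y : ℝ := (1 + (b : ℝ) / N) ^ q / b with hy
    have hy0 : 0 ≤ y := by positivity
    have hy1 : y ≤ (D : ℝ) ^ q * C / r := by
      rw [hy, div_le_div_iff₀ hb0 hrpos]
      calc (1 + (b : ℝ) / N) ^ q * r ≤ (D : ℝ) ^ q * (C * b) := by gcongr
        _ = _ := by ring
    have hy2 : y ≤ 1 := hy1.trans (by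
      rw [div_le_one hrpos]
      exact hr2.le)
    have t1 : (1 + y) ^ ζ - 1 ≤ (2 : ℝ) ^ C * (D : ℝ) ^ q * C / r := by
      refine (pow_sub_one_le hy0 hy2 ζ).trans ?_
      calc (2 : ℝ) ^ ζ * y ≤ 2 ^ C * ((D : ℝ) ^ q * C / r) := by
            apply mul_le_mul _ hy1 hy0 (by positivity)
            exact pow_le_pow_right₀ (by norm_num) hζC'
        _ = _ := by ring
    -- second term
    have t2 : (1 + (b : ℝ) / N) ^ (q * ζ) / N ≤ (D : ℝ) ^ (q * C) * (2 * (C * q + 1)) / r := by
      rw [div_le_div_iff₀ hN0 hrpos]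
      have h1 : (1 + (b : ℝ) / N) ^ (q * ζ) ≤ (D : ℝ) ^ (q * C) := by
        calc (1 + (b : ℝ) / N) ^ (q * ζ) ≤ (D : ℝ) ^ (q * ζ) := by gcongr
          _ ≤ _ := pow_le_pow_right₀ hD1 (Nat.mul_le_mul_left _ hζC')
      calc (1 + (b : ℝ) / N) ^ (q * ζ) * r ≤ (D : ℝ) ^ (q * C) * (2 * (C * q + 1) * N) := by gcongr
        _ = _ := by ring
    have t3 : (ζ : ℝ) / q / α ≤ (1 - δ) / 4 := by
      refine le_trans ?_ hqC
      have : (ζ : ℝ) ≤ C := by exact_mod_cast hζC'
      gcongr
    have t4 : A / r ≤ (1 - δ) / 4 := by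
      rw [div_lt_iff₀ hδ'] at hr1
      rw [div_le_iff₀ hrpos]
      linarith
    have t5 : A / r = (2 : ℝ) ^ C * (D : ℝ) ^ q * C / r +
        (D : ℝ) ^ (q * C) * (2 * (C * q + 1)) / r := by
      rw [hA, add_div]
    linarith

end Pool.Agent.Results.MP_59a663_pr.ConstantSparsity
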